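import Pool.Agent.H2.ST.Targets

/-!
# (CJG) conjugation by a translation.  helper34
-/

set_option autoImplicit false

namespace Pool.Agent.H34.ST2

open Pool.Agent.H2.ST MvPolynomial

theorem pf_CJG (h1 : T_PGR) : T_CJG := by
  intro k _ _ m d ρ p τ hG hS hτ hc hp
  obtain ⟨ρ', hρ'⟩ : ∃ ρ' : (Fin d → kˣ) →* (Pol k m ≃ₐ[k] Pol k m),
      ∀ t, ρ' t = τ * ρ t * τ⁻¹ :=
    ⟨(MulAut.conj τ).toMonoidHom.comp ρ, fun t => rfl⟩
  have hinv : ∀ f, τ (τ⁻¹ f) = f := fun f => τ.apply_symm_apply f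
  have hinv' : ∀ f, τ⁻¹ (τ f) = f := fun f => τ.symm_apply_apply f
  have hap : ∀ t f, ρ' t f = τ (ρ t (τ⁻¹ f)) := by
    intro t f
    rw [hρ' t]
    rfl
  have hW : ∀ χ f, f ∈ Wt ρ' χ ↔ τ⁻¹ f ∈ Wt ρ χ := by
    intro χ f
    constructor
    · intro h t
      have h2 := h t
      rw [hap] at h2
      have h3 := congrArg (fun x => τ⁻¹ x) h2
      simp only [hinv', map_smul] at h3
      exact h3
    · intro h t
      rw [hap, h t, map_smul, hinv]
  have hG' : Gr (Wt ρ') := by
    refine ⟨?_, ?_, ?_, ?_⟩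
    · rw [hW, map_one]
      exact hG.one
    · intro a b f g hf hg
      rw [hW] at hf hg ⊢
      rw [map_mul]
      exact hG.mul a b _ _ hf hg
    · intro f
      obtain ⟨c, hc1, hc2⟩ := hG.dec (τ⁻¹ f)
      refine ⟨Finsupp.mapRange τ (map_zero τ) c, ?_, ?_⟩
      · intro a
        rw [hW, Finsupp.mapRange_apply, hinv']
        exact hc1 a
      · rw [Finsupp.sum_mapRange_index (fun _ => rfl)]
        have h2 := congrArg (fun x => τ x) hc2
        simp only [hinv] at h2
        rw [← h2, Finsupp.sum, Finsupp.sum, map_sum]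
    · intro c hc1 hc2
      have h2 : Finsupp.mapRange (fun x => τ⁻¹ x) (map_zero τ⁻¹) c = 0 := by
        apply hG.ind
        · intro a
          rw [Finsupp.mapRange_apply]
          exact (hW a _).1 (hc1 a)
        · rw [Finsupp.sum_mapRange_index (fun _ => rfl)]
          have h3 := congrArg (fun x => τ⁻¹ x) hc2
          simp only [map_zero] at h3
          rw [← h3, Finsupp.sum, Finsupp.sum, map_sum]
      ext1 a
      have h4 := DFunLike.congr_fun h2 a
      rw [Finsupp.mapRange_apply, Finsupp.zero_apply] at h4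
      have h5 := congrArg (fun x => τ x) h4
      simp only [hinv, map_zero] at h5
      exact h5
  have hS' : ∀ t, Symp (ρ' t) := by
    intro t f g
    rw [hap, hap, hap]
    have h2 : τ⁻¹ (br f g) = br (τ⁻¹ f) (τ⁻¹ g) := by
      have h3 := hτ (τ⁻¹ f) (τ⁻¹ g)
      rw [hinv, hinv] at h3
      rw [← h3, hinv']
    rw [h2, hS t, hτ]
  refine ⟨ρ', hρ', ?_, hW⟩
  refine h1 k m d ρ' hG' hS' ?_
  intro t f
  rw [hap, hc, hp]
  have h2 := hc (τ⁻¹ f)
  rw [hinv] at h2
  exact h2.symm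

end Pool.Agent.H34.ST2
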