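import Pool.Agent.H2.ST.Targets

/-!
# (PLN) the centralizer is a polynomial ring in two variables.  helper34
-/

set_option autoImplicit false

namespace Pool.Agent.H34.ST2

open Pool.Agent.H2.ST MvPolynomial

/-- the derivation `br p` restricted to a Poisson subalgebra -/
noncomputable def rD {k : Type} [Field k] {m : ℕ} (K : Subalgebra k (Pol k m)) (p : Pol k m)
    (h : ∀ a ∈ K, br p a ∈ K) : K → K := fun a => ⟨br p a, h a a.2⟩

theorem rD_iter {k : Type} [Field k] {m : ℕ} (K : Subalgebra k (Pol k m)) (p : Pol k m)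
    (h : ∀ a ∈ K, br p a ∈ K) (n : ℕ) :
    ∀ a : K, (((rD K p h)^[n] a : K) : Pol k m) = (br p)^[n] (a : Pol k m) := by
  induction n with
  | zero => intro a; rfl
  | succ n ih =>
    intro a
    rw [Function.iterate_succ_apply, Function.iterate_succ_apply, ih]
    rfl

theorem rD_lnd {k : Type} [Field k] {m : ℕ} (K : Subalgebra k (Pol k m)) (p : Pol k m)
    (h : ∀ a ∈ K, br p a ∈ K) (hn : ∀ g ∈ K, ∃ n : ℕ, (br p)^[n] g = 0) : LND (rD K p h) where
  add := by
    intro a b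
    apply Subtype.ext
    exact br_add p a b
  mul := by
    intro a b
    apply Subtype.ext
    exact br_mul p a b
  nil := by
    intro a
    obtain ⟨n, hn⟩ := hn a a.2
    refine ⟨n, ?_⟩
    apply Subtype.ext
    rw [rD_iter, hn]
    rfl

theorem pf_PLN (h1 : T_SLC) (h2 : T_PLA) (h3 : T_PLB) (h4 : T_PLD) (h5 : T_PLF) (h6 : T_PLE) :
    T_PLN := by
  intro k _ _ _ m K φ hP
  obtain ⟨p, hpK, hbp, hprime, hgen⟩ := h3 k m K φ hP (h2 k m K φ hP)
  have hφ : φ ∈ Algebra.adjoin k {p} := hgen φ hP.ph (br_self φ)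
  obtain ⟨hnil, hker⟩ := h4 k m K φ p hP hpK hφ
  have hker' : ∀ g ∈ K, br p g = 0 → g ∈ Algebra.adjoin k {p} :=
    fun g hg h => hgen g hg (hker g hg h)
  have hnc : ¬ ∃ c : k, p = C c := by
    rintro ⟨c, hc⟩
    have h := (hprime c).ne_zero
    rw [hc, sub_self] at h
    exact h rfl
  obtain ⟨s, hsK, hs⟩ := h6 k m K φ p hP hpK hnil hker' hnc
    (fun c => h5 k m K φ p c hP hpK hnil (hprime c))
  refine ⟨p, hpK, s, hsK, hs, ?_⟩
  intro g hg
  have hbk : ∀ a ∈ K, br p a ∈ K := fun a ha => hP.bk p hpK a ha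
  let _ : Algebra ℚ K := ((algebraMap k K).comp (algebraMap ℚ k)).toAlgebra
  have hs1 : rD K p hbk ⟨s, hsK⟩ = 1 := by
    apply Subtype.ext
    exact hs
  obtain ⟨P, hP1, hP2⟩ := h1 K (rD K p hbk) (rD_lnd K p hbk hnil) ⟨s, hsK⟩ hs1 ⟨g, hg⟩
  have hP3 : g = ∑ i ∈ P.support, ((P.coeff i : K) : Pol k m) * s ^ i := by
    have h := congrArg (fun x : K => (x : Pol k m)) hP2
    simp only [Polynomial.eval_eq_sum, Polynomial.sum] at h
    rw [← h]
    rw [AddSubmonoidClass.coe_finsetSum]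
    rfl
  rw [hP3]
  refine Subalgebra.sum_mem _ fun i _ => ?_
  refine Subalgebra.mul_mem _ ?_ ?_
  · have h7 : br p ((P.coeff i : K) : Pol k m) = 0 :=
      congrArg (fun x : K => (x : Pol k m)) (hP1 i)
    have h8 := hker' _ (P.coeff i).2 h7
    have h9 : Algebra.adjoin k ({p} : Set (Pol k m)) ≤ Algebra.adjoin k ({p, s} : Set (Pol k m)) :=
      Algebra.adjoin_mono (Set.singleton_subset_iff.2 (Set.mem_insert _ _))
    exact h9 h8
  · exact Subalgebra.pow_mem _
      (Algebra.subset_adjoin (Set.mem_insert_of_mem _ (Set.mem_singleton _))) i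

end Pool.Agent.H34.ST2
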